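import Pool.Agent.N126.ND

/-!
MP_7ede32_ag, Q1: the strong conjecture of Lang, with its converse, for the points with coordinates
which are short sums of units, on all components of the projective varieties over number fields given
by nested sums of high powers of linear forms, or of monomials (arbitrary coefficients, arbitrary
singularities).

`HighTowers s N h F` (`Pool/Agent/TH710/ND/Proj.lean`, `Good.lean`, `Dich.lean`): the forms `F e` are
nested sums of high powers of linear forms, or all of them are nested sums of high powers of
monomials: sums of at most `s` terms `c g ^ e`, `N ≤ e`, where the `g` are linear forms (monomials) or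
sums of at most `s` such terms of the next level, and so on, with at most `h + 1` levels; the numbers
of summands and the exponents are the same for all gates of one level of one form.

`X` is the projective variety over `K` given by the forms `F e`, and `Z` is given by the forms in the
ideal `I'`. From `Pool/Agent/Y719/SU/Def.lean`: `HtBound I I'`: for all finite extensions `L` of `K`,
the height of the points of `X(L)` outside of `Z` with homogeneous coordinates `x = ∑ u_j v_j`, where
the `u_j` are `r` elements of a finitely generated group of rational numbers and the `v_j` are `r`
vectors over `L`, is at most a constant times `1` plus the height of the system of the `v_j`;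
`FinBound I I'`: for bounded `v_j` there are only finitely many such points; `Finiteness I I'`: for all
`L` only finitely many points of `X(L)` are outside of `Z`; `NoRat σ I I'`: all rational curves in
`X_σ` lie in `Z_σ`. `Contained σ I₀ I'` (`Pool/Agent/N126/LS.lean`):
`Z_0` is contained in `Z`. `SubVar F M w y`: `M` is the function field and `y` the generic point of a
closed subvariety of dimension `w`; `IsComponent F y`: it is an irreducible component (of `X_σ`).
`BrodyV ∅ y`: some hypersurface that does not contain `V` contains all nonconstant entire curves in
`V`.
-/

set_option autoImplicit false

namespace Pool.Agent.Results.MP_7ede32_ag.NestedStrongLang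

open MvPolynomial Pool.Agent.Y719.SU Pool.Agent.N126.LS
open Pool.Agent.TH710.ND Pool.Agent.W602.GT
open Pool.Agent.R869.Wd (BrodyV)

/-- Let `X` be the projective variety in `P ^ n`, over a number field `K`, given by finitely many
forms `F e` which are nested sums, with at most `h + 1` levels and at most `s` summands at each
gate, of powers with exponents at least `N ≥ (n + 1) (h + 1) (2 s + 1) ^ 5` of linear forms, or of
monomials. There is a closed subset `Z_0` of `X`, over `K`, with the following properties, for all
embeddings `σ` of `K` in the complex numbers. (1) An irreducible component `V` of `X_σ` is of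
general type if and only if it is not contained in `Z_0`, if and only if it is not ruled, if and only
if its canonical bundle is pseudo-effective, if and only if its Kodaira dimension is nonnegative, if
and only if the entire curves in `V` are not dense in `V`. (2) For all closed subsets `Z` over `K`
the following are equivalent: `Z` contains `Z_0`; over all finite extensions `L` of `K`, the heights
of the points of `X(L)` outside of `Z` with coordinates that are sums of `r` vectors, multiplied by
units, are bounded by the heights of these vectors; for bounded vectors there are only finitely many
such points; all rational curves in `X_σ` lie in `Z`.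
(3) If `X(L)` has only finitely many points outside of `Z`, for all finite extensions `L` of `K`, then
`Z` contains `Z_0`; so `Z` contains the components of `X_σ` which are not of general type. -/
theorem result {K : Type} [Field K] [NumberField K] {n s N h : ℕ} {ι : Type} [Finite ι]
    {F : ι → MvPolynomial (Fin (n + 1)) K} (hF : HighTowers s N h F)
    (hN : (n + 1) * ((h + 1) * (2 * s + 1) ^ 5) ≤ N) :
    ∃ I₀ : Ideal (MvPolynomial (Fin (n + 1)) K), Ideal.span (Set.range F) ≤ I₀ ∧
      (∀ (σ : K →+* ℂ) (M : Type) [Field M] [Algebra ℂ M] (w : ℕ) (y : Fin (n + 1) → M),
        SubVar (fun e => map σ (F e)) M w y → IsComponent (fun e => map σ (F e)) y →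
          [GeneralType ℂ M w, ∃ G ∈ I₀, IsForm G ∧ val y (map σ G) ≠ 0, ¬ Ruled ℂ M,
            Psef ℂ M w (fun _ => False), KodGe ℂ M w (fun _ => False) 0, BrodyV ∅ y].TFAE) ∧
      (∀ (σ : K →+* ℂ) (I' : Ideal (MvPolynomial (Fin (n + 1)) K)), [Contained σ I₀ I',
        HtBound (Ideal.span (Set.range F)) I', FinBound (Ideal.span (Set.range F)) I',
        NoRat σ (Ideal.span (Set.range F)) I'].TFAE) ∧
      ∀ (σ : K →+* ℂ) (I' : Ideal (MvPolynomial (Fin (n + 1)) K)),
        Finiteness (Ideal.span (Set.range F)) I' → Contained σ I₀ I' := by
  obtain ⟨I₀, h1, h2, h3, h4⟩ := Pool.Agent.N126.ND.towers_strong hF hN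
  refine ⟨I₀, h1, h2, fun σ I' => ?_, h4⟩
  have h := h3 σ I'
  tfae_have 1 ↔ 2 := h.out 0 1
  tfae_have 1 ↔ 3 := h.out 0 2
  tfae_have 1 ↔ 4 := h.out 0 4
  tfae_finish

end Pool.Agent.Results.MP_7ede32_ag.NestedStrongLang
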