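import Pool.Agent.N154.AR.Geo2

/-!
The special set, over the number field, of projective manifolds with positive 2-forms (for surfaces:
with ample canonical bundle) which are mapped to an abelian variety with hyperbolic fibres.
-/

set_option autoImplicit false

open FF LinearAlgebra.Projectivization Pool.Agent.W602.GT Pool.Agent.N154.GG Pool.Agent.N154.AR

/-- Let `X = {F = 0}` be a projective variety over a number field `k`, and let `σ` be an embedding
of `k` in `ℂ` such that the complex projective variety `X_σ` is smooth of dimension `d`, with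
function field `K` and generic point `y`, its 2-forms are positive (for example, `Λ² Ω` is ample;
for surfaces: the canonical bundle is ample), and there is a holomorphic map `α : X_σ → ℂᵐ / Λ` to an
abelian variety (a complex torus with a Riemann form `H`) of any dimension `m`, whose fibres are
Brody hyperbolic.

Then there is a closed subset `Z₀` of `X`, given by forms over the number field `k`, with
`Z₀ ≠ X` if `d ≥ 2`, such that
* every nonconstant entire curve in `X_σ` lies in `Z₀`,
* every holomorphic map from the punctured disc to `X_σ` whose image is not contained in `Z₀` extends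
  to the disc,
* `X_σ` is Kobayashi hyperbolic modulo `Z₀`, with the lower bound
  `c D ^ ε min (D, dist (p, q))` for the pseudodistance of `p` and `q`, where `D` is the distance from
  `p` to `Z₀` (or `1`),
and such that for every closed subset `Z` given by forms over `k` the following are
equivalent: `Z₀ ⊆ Z`; all nonconstant entire curves in `X_σ` lie in `Z`; for every embedding `τ` of
`k` in `ℂ` the image of every nonconstant holomorphic map from an elliptic curve to `X_τ` lies in `Z`;
the same for one embedding `τ`. And if `X` has only finitely many `E`-rational points outside of `Z`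
for every finite extension `E` of `k`, then `Z₀ ⊆ Z`, so that all these conditions hold. -/
theorem Pool.Agent.Results.MP_7ede32_ag.SpecialSetOverAbelian.result {n d m : ℕ} {ι : Type}
    {k : Type} [Field k] [NumberField k] (F : ι → MvPolynomial (Fin (n + 1)) k) (σ : k →+* ℂ)
    {K : Type} [Field K] [Algebra ℂ K] (y : Fin (n + 1) → K) (hX : SmoothVariety (emb σ F) d y)
    {κ : Type} (η : κ → (Fin (n + 1) → ℂ) → (Fin (n + 1) → ℂ) → (Fin (n + 1) → ℂ) → ℂ)
    (hη : PositiveTwoForms (Cone (emb σ F)) d η) (Λ : Submodule ℤ (Fin m → ℂ))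
    [DiscreteTopology Λ] [IsZLattice ℝ Λ] (H : (Fin m → ℂ) → (Fin m → ℂ) → ℂ)
    (hH : Pool.Agent.N154.TT.RiemannForm Λ H) (α : (Fin (n + 1) → ℂ) → (Fin m → ℂ) ⧸ Λ)
    (hα : Pool.Agent.N154.TT.HolToTorus (Cone (emb σ F)) Λ α)
    (hfib : HyperbolicFibres (emb σ F) α) :
    ∃ (ι₀ : Type) (Z₀ : ι₀ → MvPolynomial (Fin (n + 1)) k), (∀ i, IsForm (Z₀ i)) ∧
      (∀ s, On (emb σ Z₀) s → On (emb σ F) s) ∧ (2 ≤ d → ∃ i, val y (emb σ Z₀ i) ≠ 0) ∧
      (∀ f, HolIn (emb σ F) f → (∀ z w, f z = f w) ∨ ∀ z, On (emb σ Z₀) (f z)) ∧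
      (∀ f, PunctIn (emb σ F) f → Extends (emb σ F) f ∨ ∀ z ∈ PDisc, On (emb σ Z₀) (f z)) ∧
      (∀ ε : ℝ, 0 < ε → ∃ c : ℝ, 0 < c ∧ ∀ p q : ℙ ℂ (Fin (n + 1) → ℂ), p.rep ∈ Cone (emb σ F) →
        q.rep ∈ Cone (emb σ F) → ∀ D : ℝ, 0 ≤ D → D ≤ 1 →
        (∀ s, On (emb σ Z₀) s → D ≤ projDist p s) →
          ENNReal.ofReal (c * D ^ ε * min D (projDist p q)) ≤ kobayashi (Cone (emb σ F)) p q) ∧
      ∀ (ι' : Type) (Z : ι' → MvPolynomial (Fin (n + 1)) k), (∀ i, IsForm (Z i)) →
        List.TFAE [
          ∀ s, On (emb σ Z₀) s → On (emb σ Z) s,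
          EntireIn σ F Z,
          ∀ τ : k →+* ℂ, EllipticIn τ F Z,
          ∃ τ : k →+* ℂ, EllipticIn τ F Z] ∧
        (FiniteOutside F Z → ∀ s, On (emb σ Z₀) s → On (emb σ Z) s) :=
  abel_arith F σ hX hη hH hα hfib
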