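import Mathlib
import Pool.Agent.N626.Ib

set_option autoImplicit false

/-!
# The strong Lang conjecture for P-recursive sequences of points, with uniform bounds

A sequence `a` in a field `L` of characteristic zero is P-recursive of order at most `r` and degree
at most `e` (`PRecOf r e a`) if `p_0(m) a(m) + … + p_r(m) a(m + r) = 0` for all `m`, with polynomials
`p_i` over `L` of degree at most `e`, not all zero. A sequence `x` of vectors is P-recursive
(`RecVec r e x`) if all its coordinates are. There is no condition on the leading and on the trailing
coefficients, which can have zeros, and the fields need not be number fields.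

**Theorem.** There is a number `B n d r e`, which depends on nothing else, such that:

(1) If `X` is a closed subset of projective `n`-space over a field `K` of characteristic zero, given
by (any number of) forms of degree at most `d`, and if `x` is a P-recursive sequence of order at most
`r` and degree at most `e` over `K` on (the cone over) `X`, then all but at most `B n d r e` of the
points with coordinates `x(m)` lie on nonconstant rational curves in `X`, given by polynomials of
degree at most `B n d r e` over an extension of `K`.

(2) (The strong Lang conjecture for these sequences, with a uniform bound.) Let `X` be an integral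
closed subvariety of projective `n`-space over a field `k` of characteristic zero, given by forms of
degree at most `d`. If `X` is not uniruled (for instance of general type, of positive dimension),
then for all `r`, `e` there is one proper closed subset `Z = X ∩ {G = 0}` over `k` such that, for all
fields `L ⊇ k`, all P-recursive sequences of points of `X` over `L` of order at most `r` and degree
at most `e` have at most `B n d r e` points outside `Z`.

(3) If `X` is uniruled and `k` is a number field, this fails for some `e` even for `r = 1` and
number fields `L`, and even if finitely many points are allowed instead of boundedly many: for each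
proper closed subset `Z` there is a sequence of points of `X` over a number field, with infinitely
many points outside `Z`, whose coordinates are values of polynomials of degree at most `e` at the
natural numbers.

(4) For arbitrary closed subsets `X` and `Z` over a field of characteristic zero the following are
equivalent: all rational curves in `X`, over all extensions, lie in `Z`; all P-recursive sequences of
points of `X` of order at most `r` and degree at most `e`, over all extensions, have at most
`B n d r e` points outside `Z`, for all `r`, `e`; all sequences of values of polynomials on `X` have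
only finitely many points outside `Z`.

(5) If `k = K` is a number field with an embedding `σ` in `ℂ`, then the last condition is only needed
for number fields, and each of the two conditions of Lang's conjecture for `X` and `Z` (all entire
curves in `X_σ` lie in `Z_σ`; `X(L)` has only finitely many points outside `Z` for all number fields
`L ⊇ K`) implies the absolute bounds for P-recursive sequences over all fields `L ⊇ K`.

Method: Noetherian induction on the ideals of the ring of relations between the index, the terms of
the sequence and all the coefficients. A maximal ideal of relations without a bound is prime; below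
it there is a prime ideal which is invariant under a power of the shift, so that the generic member
of the family is a point over a difference field, with coordinates given by linear difference
equations. By the theory of these equations (`dichotomy`) there is a family of rational curves
in the generic variety, with the same vanishing forms as the point, or the generic member is fixed by
a power of the shift. Rational curves specialise (`Pool.Agent.R393.UH.spec_curve`).
-/

namespace Pool.Agent.Results.MP_7ede32_ag.UniformHolonomic

open MvPolynomial Pool.Agent.N626 Pool.Agent.R393.UO Pool.Agent.R393.UH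
open Pool.Agent.R849.PR (RatIn overK)
open Pool.Agent.W235.PR (RatCurvesIn EntireCurvesIn RationalFinite)
open Pool.Agent.H533R3.SL (Uniruled)
open scoped NumberField

/-- **The strong Lang conjecture for P-recursive sequences of points, with uniform bounds.** -/
theorem result : ∃ B : ℕ → ℕ → ℕ → ℕ → ℕ,
    (∀ (n d r e : ℕ) (K : Type) [Field K] [CharZero K] (ι : Type)
      (F : ι → MvPolynomial (Fin (n + 1)) K), (∀ i, ∃ c, c ≤ d ∧ (F i).IsHomogeneous c) →
      ∀ x : ℕ → Fin (n + 1) → K, RecVec r e x → (∀ m i, aeval (x m) (F i) = 0) →
        (offRat (B n d r e) F x).encard ≤ B n d r e) ∧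
    (∀ (k : Type) [Field k] [CharZero k] (n d : ℕ) (FF : Finset (MvPolynomial (Fin (n + 1)) k)),
      (∀ F ∈ FF, ∃ c, c ≤ d ∧ F.IsHomogeneous c) →
      (Ideal.span (FF : Set (MvPolynomial (Fin (n + 1)) k))).IsPrime →
      ¬ Uniruled (Ideal.span (FF : Set (MvPolynomial (Fin (n + 1)) k))) → ∀ r e : ℕ,
      ∃ G : MvPolynomial (Fin (n + 1)) k, (∃ c, G.IsHomogeneous c) ∧
        G ∉ Ideal.span (FF : Set (MvPolynomial (Fin (n + 1)) k)) ∧
        ∀ (L : Type) [Field L] [Algebra k L] (x : ℕ → Fin (n + 1) → L), RecVec r e x →
          (∀ m, ∀ F ∈ FF, aeval (x m) F = 0) →
          (offPts (fun _ : Unit => G) x).encard ≤ B n d r e) ∧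
    (∀ (k : Type) [Field k] [NumberField k] (n : ℕ) (FF : Finset (MvPolynomial (Fin (n + 1)) k)),
      Uniruled (Ideal.span (FF : Set (MvPolynomial (Fin (n + 1)) k))) →
      ∃ e : ℕ, ∀ G : MvPolynomial (Fin (n + 1)) k, (∃ c, G.IsHomogeneous c) →
        G ∉ Ideal.span (FF : Set (MvPolynomial (Fin (n + 1)) k)) →
        ∃ (L : Type) (_ : Field L) (_ : NumberField L) (_ : Algebra k L)
          (q : Fin (n + 1) → Polynomial L), (∀ j, (q j).natDegree ≤ e) ∧
          (RecVec 1 e fun (m : ℕ) j => (q j).eval (m : L)) ∧
          (∀ m : ℕ, ∀ F ∈ FF, aeval (fun j => (q j).eval (m : L)) F = 0) ∧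
          (offPts (fun _ : Unit => G) fun (m : ℕ) j => (q j).eval (m : L)).Infinite) ∧
    (∀ (k : Type) [Field k] [CharZero k] (ι κ : Type) (n d : ℕ)
      (F : ι → MvPolynomial (Fin (n + 1)) k) (G : κ → MvPolynomial (Fin (n + 1)) k),
      (∀ i, ∃ c, c ≤ d ∧ (F i).IsHomogeneous c) →
      List.TFAE [RatIn F G, RecBounded B d F G, PolyFinite F G]) ∧
    (∀ (K : Type) [Field K] [NumberField K] (σ : K →+* ℂ) (ι κ : Type) [Finite ι] (n d : ℕ)
      (F : ι → MvPolynomial (Fin (n + 1)) (𝓞 K)) (G : κ → MvPolynomial (Fin (n + 1)) (𝓞 K)),
      (∀ i, ∃ c, c ≤ d ∧ (F i).IsHomogeneous c) → (∀ l, ∃ c, (G l).IsHomogeneous c) →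
      List.TFAE [RatCurvesIn σ F G, RatIn (overK F) (overK G),
        RecBounded B d (overK F) (overK G), PolyFiniteNF (overK F) (overK G)] ∧
      (EntireCurvesIn σ F G → RecBounded B d (overK F) (overK G)) ∧
      (RationalFinite F G → RecBounded B d (overK F) (overK G))) := by
  refine ⟨BB, fun n d r e K _ _ ι F hF x hx hX => BB_spec n d r e K ι F hF x hx hX,
    fun k _ _ n d FF hFF hp hnu r e => strong_lang FF hFF hp hnu r e,
    fun k _ _ n FF hu => ?_, fun k _ _ ι κ n d F G hF => ?_, fun K _ _ σ ι κ _ n d F G hF hG => ?_⟩
  · obtain ⟨e, he⟩ := strong_converse FF hu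
    refine ⟨e, fun G h1 h2 => ?_⟩
    obtain ⟨L, i1, i2, i3, q, h3, h4, h5⟩ := he G h1 h2
    exact ⟨L, i1, i2, i3, q, h3, recVec_poly q h3, h4, h5⟩
  · tfae_have 1 → 2 := recBounded_of_rat F G hF
    tfae_have 2 → 3 := polyFinite_of_bounded
    tfae_have 3 → 1 := rat_of_poly F G
    tfae_finish
  · have hF' : ∀ i, ∃ e, (F i).IsHomogeneous e := fun i => by
      obtain ⟨e, -, he⟩ := hF i
      exact ⟨e, he⟩
    have hFK : ∀ i, ∃ e, e ≤ d ∧ (overK F i).IsHomogeneous e := fun i => by
      obtain ⟨e, h1, he⟩ := hF i
      exact ⟨e, h1, he.map _⟩
    obtain ⟨N, hN⟩ := Pool.Agent.R849.PR.cyc_of_rat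
    have h0 := Pool.Agent.R849.PR.tfae_num σ F G N hN hF' hG
    have h23 : RatIn (overK F) (overK G) → RecBounded BB d (overK F) (overK G) :=
      recBounded_of_rat _ _ hFK
    refine ⟨?_, fun h => h23 ((h0.out 0 2).1 (Pool.Agent.W235.PR.exp_of_entire σ F G hF' hG h)),
      fun h => h23 ((h0.out 0 2).1 (((Pool.Agent.W235.PR.tfae σ F G hF' hG).out 5 0).1
        (Pool.Agent.W235.PR.rec_of_rational F G h)))⟩
    tfae_have 1 ↔ 2 := h0.out 1 2
    tfae_have 2 → 3 := h23
    tfae_have 3 → 4 := fun h L _ _ _ q hq => polyFinite_of_bounded h L q hq
    tfae_have 4 → 2 := rat_of_polyNF (overK F) (overK G)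
    tfae_finish

end Pool.Agent.Results.MP_7ede32_ag.UniformHolonomic
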